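import Pool.Agent.H458.AG.Gen
import Pool.Graph.R_pool_sql_team_seeded_63374d34.N874.Jac.Def
import Pool.Agent.H458.RN.Rel

/-!
# Almost all hyperelliptic Jacobians over every number field after a bounded quadratic twist

Let `F` be ANY number field and `g ≥ 1`. We consider ALL polynomials
`f = x ^ (2 g + 1) + a_(2 g - 1) x ^ (2 g - 1) + ... + a_0` with coefficients in the ring of integers of `F`,
ordered by the height: `|σ a_i| ≤ B ^ (2 g + 1 - i)` for all embeddings `σ : F → ℂ`. (Every hyperelliptic
curve of genus `g` over `F` with a rational Weierstrass point has an equation `y ^ 2 = f(x)` with such an `f`.)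
`J_f` is the Jacobian of `y ^ 2 = f(x)`, an abelian variety of dimension `g` over `F`, and `J_f ^ d` its quadratic
twist by `d`.

For a natural number `R` and `f` let `C(f, R)` be the class of all the finite Galois extensions
`M / F` of 2-power degree in which all the primes dividing `R` split completely, such that for every prime `v`
of `F` either `M / F` is unramified at `v` or `f` is irreducible modulo `v`, and such that for every real embedding
`σ` of `F` either a real embedding of `M` extends `σ` or `σ f` has exactly one real zero.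

**Theorem.** Let `W ≥ 1`, let `𝒮` be a finite set of nonzero integers of `F` and `ε > 0`. There are a FINITE set
`𝒟` of squarefree natural numbers `D ≡ 1 mod 8 W`, with `1 ∈ 𝒟`, and a multiple `R` of `2 W` and of all `D ∈ 𝒟`, such
that for all large `B` ALL the `f` of height at most `B`, with the exception of a proportion `ε` at most, have for
every `d ∈ 𝒮` a `D ∈ 𝒟` such that `J = J_f ^ (d D)` has the following properties.

(1) For ALL `M ∈ C(f ^ d, R)` (`M = F` is one of them) multiplication by two is bijective on `J(M)`, and the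
2-primary part of the Tate-Shafarevich group of `J` over `M` is zero. (So `J(M)` is finite of odd order by
the theorem of Mordell and Weil, and the rank is 0.)

(2) For all `M ∈ C(f ^ d, R)` such that `Gal(M / F)` is not cyclic the root number of `J` over `M` is `1`:
`(-1) ^ (g r) ∏ w(J / M_v) = 1`, `r` the number of the infinite places of `M`. We prove this for every
function `w` on the primes of `M` with three properties of the local root numbers: the values are signs,
`w v = 1` if `v` does not divide `2` and the polynomial of the twist has no multiple zero modulo `v` (good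
reduction), and `w` is invariant under `Gal(M / F)` (as `J` is defined over `F`).

Hence the parity conjecture `(-1) ^ rk = w` holds for `J` over all the `M ∈ C(f ^ d, R)` with a Galois group
which is not cyclic; and this for a quadratic twist, by one of finitely many numbers which do not depend on `f`, of
EVERY hyperelliptic Jacobian with a rational Weierstrass point over EVERY number field, up to a proportion `ε`.

What was known: a positive proportion (`MP_ac3185_nt.EveryFieldEveryGenus`, without twisting), and for `g = 1` part (1)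
for almost all curves (`MP_7cad78_nt.FiniteSetsOfTwists`, by the same method). (1) is also used in
`MP_a43263_nt.AlmostAllJacobians` for abelian varieties over `ℚ`; the root numbers in (2) and the parity conjecture are
only here.

Proof. `f` is good at a prime number `q` (with a prime of degree one, `q ≡ 1 mod 8 W`) if `f` has exactly
one zero modulo one prime of degree one over `q`, its cofactor is irreducible there, and `f` is irreducible modulo the
other primes over `q`. For a set `S` of primes at which `f` is good, `f` has a twist as required by a product of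
primes in `S` if `f` is not in an exceptional set, and a theorem on the orbits of Bhargava and Gross (library and
helper459) and the number of points near the cusp bound the number of the exceptional `f` by `C 2 ^ (- # S)` of the
good ones, `C` independent of `S`. The new idea is to choose `S` depending on `f`: take `k` disjoint blocks of
primes such that the expected number of good primes in each block is large. All but few `f` have at least `9 / 10`
of this number of good primes in every block; if `f` is exceptional for ALL the transversals `S` of its good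
primes, then it is counted very often, and the number of these `f` is at most `C (5 / 9) ^ k` of all.
In this run the parts for genus `g` were proved by helpers 30, 47, 71, 80, 102, 118, 139, 152, 166, 231, 234, 236, 294,
295, 307, 322, 348, 372, 383, 650, 686 and 945.

Part (2). The product over the primes is `(-1) ^ n`, where `n` is the number of the primes `v` with `w v = -1`
which are stable under the 2-group `Gal(M / F)`. Such a `v` is not over a ramified prime, where the
reduction is good; so the Galois group is the decomposition group of an unramified prime, and cyclic.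
-/

set_option autoImplicit false
set_option linter.all false

namespace Pool.Agent.Results.MP_ac3185_nt.AlmostAllJacobians

open Polynomial Filter IsDedekindDomain NumberField
open Pool.Agent.N874.Jac (UniquelyTwoDivisible ShaTwoTrivialReal)
open scoped Classical

section defs

variable {F : Type} [Field F] [NumberField F]

/-- `f` is a monic polynomial of degree `2 g + 1` with integral coefficients, without term of degree
`2 g`, and of height at most `B`: all conjugates of the coefficient of degree `j` are at most
`B ^ (2 g + 1 - j)` in absolute value. -/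
structure IsPoly (g B : ℕ) (f : (𝓞 F)[X]) : Prop where
  monic : f.Monic
  degree : f.natDegree = 2 * g + 1
  trace : f.coeff (2 * g) = 0
  height : ∀ j ≤ 2 * g, ∀ σ : F →+* ℂ, ‖σ (f.coeff j : F)‖ ≤ (B : ℝ) ^ (2 * g + 1 - j)

variable (F) in
/-- The polynomials `f` of height at most `B`. -/
def Polys (g B : ℕ) : Set (𝓞 F)[X] := {f | IsPoly g B f}

/-- `f` is irreducible modulo `v`. -/
def IrreducibleMod (f : (𝓞 F)[X]) (v : HeightOneSpectrum (𝓞 F)) : Prop :=
  Irreducible (f.map (Ideal.Quotient.mk v.asIdeal))

/-- `d ^ (2 g + 1) f(x / d)`: the coefficient of degree `j` is multiplied by `d ^ (2 g + 1 - j)`. The curve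
`y ^ 2 = twist f d` is the quadratic twist by `d` of the curve `y ^ 2 = f(x)`. -/
noncomputable def twist (f : (𝓞 F)[X]) (d : 𝓞 F) : (𝓞 F)[X] := f.scaleRoots d

/-- `M / F` is unramified at `v`. -/
def Unramified (v : HeightOneSpectrum (𝓞 F)) (M : Type) [Field M] [NumberField M]
    [Algebra F M] : Prop :=
  ∀ w : HeightOneSpectrum (𝓞 M), v.asIdeal.map (algebraMap (𝓞 F) (𝓞 M)) ≤ w.asIdeal →
    ¬ v.asIdeal.map (algebraMap (𝓞 F) (𝓞 M)) ≤ w.asIdeal ^ 2

/-- `v` splits completely in `M`: it is unramified and all integers of `M` are congruent to integers of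
`F` modulo every prime over `v`. -/
def SplitsCompletely (v : HeightOneSpectrum (𝓞 F)) (M : Type) [Field M] [NumberField M]
    [Algebra F M] : Prop :=
  Unramified v M ∧
  ∀ w : HeightOneSpectrum (𝓞 M), v.asIdeal.map (algebraMap (𝓞 F) (𝓞 M)) ≤ w.asIdeal →
    ∀ y : 𝓞 M, ∃ c : 𝓞 F, y - algebraMap (𝓞 F) (𝓞 M) c ∈ w.asIdeal

/-- The extension `M / F` belongs to the class `C(f, R)` of the number `R` and the polynomial `f`. -/
structure InClass (R : ℕ) (f : (𝓞 F)[X]) (M : Type) [Field M] [NumberField M] [Algebra F M] : Prop where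
  galois : IsGalois F M
  degree : ∃ n : ℕ, Module.finrank F M = 2 ^ n
  split : ∀ v : HeightOneSpectrum (𝓞 F), (R : 𝓞 F) ∈ v.asIdeal → SplitsCompletely v M
  ramified : ∀ v : HeightOneSpectrum (𝓞 F), Unramified v M ∨ IrreducibleMod f v
  real : ∀ σ : F →+* ℝ, (∃ ρ : M →+* ℝ, ρ.comp (algebraMap F M) = σ) ∨
    ∃! e : ℝ, (f.map (σ.comp (algebraMap (𝓞 F) F))).eval e = 0

/-- The polynomial `f` over the extension `M` of `F`. -/
noncomputable def overM (M : Type) [Field M] [Algebra F M] (f : (𝓞 F)[X]) : M[X] :=
  (f.map (algebraMap (𝓞 F) F)).map (algebraMap F M)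

/-- Multiplication by two is bijective on `J(M)`, `J` the Jacobian of `y ^ 2 = P(x)`, and the 2-primary
part of the Tate-Shafarevich group of `J` over `M` is zero. -/
def NoTwoPart {M : Type} [Field M] [NumberField M] (P : M[X]) : Prop :=
  UniquelyTwoDivisible P ∧ ShaTwoTrivialReal P (𝓞 M)

/-- The properties of the local root numbers `w(J / M_v)` at the primes `v` of `M` which we use: they are
signs, they are `1` if `v` does not divide `2` and `f` has no multiple zero modulo `v` (`J` has good
reduction), and they are the same for primes which are conjugate over `F`. -/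
structure LocalRootNumbers (f : (𝓞 F)[X]) (M : Type) [Field M] [NumberField M] [Algebra F M]
    (w : HeightOneSpectrum (𝓞 M) → ℤ) : Prop where
  sign : ∀ v, w v = 1 ∨ w v = -1
  good : ∀ v : HeightOneSpectrum (𝓞 M), (2 : 𝓞 M) ∉ v.asIdeal →
    ((f.map (algebraMap (𝓞 F) (𝓞 M))).map (Ideal.Quotient.mk v.asIdeal)).Separable → w v = 1
  conj : ∀ (σ : M ≃ₐ[F] M) (v v' : HeightOneSpectrum (𝓞 M)),
    (∀ x : M, v'.valuation M x = v.valuation M (σ x)) → w v' = w v

/-- The global root number of an abelian variety of dimension `g`: the product of the local root numbers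
at the primes and of `(-1) ^ g` for every infinite place. -/
noncomputable def rootNumber (g : ℕ) (M : Type) [Field M] [NumberField M]
    (w : HeightOneSpectrum (𝓞 M) → ℤ) : ℤ :=
  ((-1) ^ g) ^ Nat.card (InfinitePlace M) * ∏ᶠ v, w v

/-- The properties of the twist of `f` by `c` in the theorem, over all the fields `M` in the class of `f₀`. -/
structure Good (g R : ℕ) (f₀ f : (𝓞 F)[X]) (c : 𝓞 F) : Prop where
  selmer : ∀ (M : Type) [Field M] [NumberField M] [Algebra F M], InClass R f₀ M →
    NoTwoPart (overM M (twist f c))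
  root : ∀ (M : Type) [Field M] [NumberField M] [Algebra F M], InClass R f₀ M →
    ¬ IsCyclic (M ≃ₐ[F] M) → ∀ w : HeightOneSpectrum (𝓞 M) → ℤ, LocalRootNumbers (twist f c) M w →
    {v | w v ≠ 1}.Finite ∧ rootNumber g M w = 1

end defs

section pf

variable {F : Type} [Field F] [NumberField F]

open Pool.Agent.H458.RN

theorem sep_up {M : Type} [Field M] [NumberField M] [Algebra F M] {f : (𝓞 F)[X]}
    {u : HeightOneSpectrum (𝓞 F)} {v : HeightOneSpectrum (𝓞 M)}
    (hl : u.asIdeal.map (algebraMap (𝓞 F) (𝓞 M)) ≤ v.asIdeal) (h : IrreducibleMod f u) :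
    ((f.map (algebraMap (𝓞 F) (𝓞 M))).map (Ideal.Quotient.mk v.asIdeal)).Separable := by
  haveI : u.asIdeal.IsMaximal := u.isMaximal
  letI : Field (𝓞 F ⧸ u.asIdeal) := Ideal.Quotient.field u.asIdeal
  haveI : Finite (𝓞 F ⧸ u.asIdeal) := inferInstance
  have h1 : (f.map (Ideal.Quotient.mk u.asIdeal)).Separable :=
    PerfectField.separable_of_irreducible h
  let φ : (𝓞 F ⧸ u.asIdeal) →+* (𝓞 M ⧸ v.asIdeal) :=
    Ideal.Quotient.lift u.asIdeal ((Ideal.Quotient.mk v.asIdeal).comp (algebraMap (𝓞 F) (𝓞 M)))
      (fun a ha => by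
        rw [RingHom.comp_apply, Ideal.Quotient.eq_zero_iff_mem]
        exact hl (Ideal.mem_map_of_mem _ ha))
  have h2 := h1.map (f := φ)
  rw [Polynomial.map_map] at h2
  rw [Polynomial.map_map]
  exact h2

theorem root_one {g R : ℕ} {f₀ f : (𝓞 F)[X]} (h2R : 2 ∣ R)
    (hred : ∀ u : HeightOneSpectrum (𝓞 F), (R : 𝓞 F) ∉ u.asIdeal → IrreducibleMod f₀ u →
      IrreducibleMod f u)
    (hm : f.Monic) (hd : f.natDegree = 2 * g + 1)
    (hirr : Irreducible (f.map (algebraMap (𝓞 F) F)))
    (M : Type) [Field M] [NumberField M] [Algebra F M] (hM : InClass R f₀ M)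
    (hnc : ¬ IsCyclic (M ≃ₐ[F] M)) (w : HeightOneSpectrum (𝓞 M) → ℤ)
    (hw : LocalRootNumbers f M w) : {v | w v ≠ 1}.Finite ∧ rootNumber g M w = 1 := by
  haveI := hM.galois
  obtain ⟨n, hn⟩ := hM.degree
  haveI : FiniteDimensional F M := Module.finite_of_finrank_pos (by rw [hn]; positivity)
  have hcardG : Nat.card (M ≃ₐ[F] M) = 2 ^ n := by
    rw [IsGalois.card_aut_eq_finrank, hn]
  -- the degree is at least four
  have hn2 : 2 ≤ n := by
    by_contra hlt
    apply hnc
    haveI : Fact (Nat.Prime 2) := ⟨Nat.prime_two⟩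
    obtain rfl | rfl : n = 0 ∨ n = 1 := by omega
    · rw [pow_zero, Nat.card_eq_one_iff_unique] at hcardG
      haveI := hcardG.1
      exact isCyclic_of_subsingleton
    · rw [pow_one] at hcardG
      exact isCyclic_of_prime_card hcardG
  have hfin : {v | w v ≠ 1}.Finite := by
    refine (bad_finite (P := f.map (algebraMap (𝓞 F) (𝓞 M))) ?_ ?_).subset ?_
    · rw [hm.natDegree_map, hd]
      omega
    · rw [Polynomial.map_map]
      have h1 := hirr.separable.map (f := algebraMap F M)
      rw [Polynomial.map_map] at h1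
      have e : (algebraMap (𝓞 M) M).comp (algebraMap (𝓞 F) (𝓞 M)) =
          (algebraMap F M).comp (algebraMap (𝓞 F) F) := rfl
      rw [e]
      exact h1
    · intro v hv
      rw [Set.mem_setOf_eq]
      by_contra h
      rw [not_or, not_not] at h
      exact hv (hw.good v h.1 h.2)
  refine ⟨hfin, ?_⟩
  have hprod := prod_eq F hn w hw.sign hfin hw.conj
  have hempty : {v | w v = -1 ∧ Fixed F v} = ∅ := by
    rw [Set.eq_empty_iff_forall_notMem]
    rintro v ⟨hv1, hv2⟩
    obtain ⟨u, hu⟩ := Pool.Agent.N874.TF.exists_bel F v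
    haveI hl : v.asIdeal.LiesOver u.asIdeal := ⟨by
      ext y
      rw [Ideal.mem_comap]
      exact hu y⟩
    have hle : u.asIdeal.map (algebraMap (𝓞 F) (𝓞 M)) ≤ v.asIdeal := by
      rw [Ideal.map_le_iff_le_comap]
      intro y hy
      exact (hu y).1 hy
    -- an unramified prime
    have hunr : ∀ h : Unramified u M, False := by
      intro h
      apply hnc
      refine cyclic_of_fixed (u := u) (v := v) ?_ hv2
      exact Ideal.ramificationIdx'_spec (by rw [pow_one]; exact hle) (h v hle)
    by_cases hR : (R : 𝓞 F) ∈ u.asIdeal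
    · exact hunr (hM.split u hR).1
    rcases hM.ramified u with h | h
    · exact hunr h
    · have h3 : (2 : 𝓞 M) ∉ v.asIdeal := by
        intro h4
        apply hR
        obtain ⟨m, hm'⟩ := h2R
        rw [hm', Nat.cast_mul]
        refine Ideal.mul_mem_right _ _ ?_
        rw [hu, Nat.cast_ofNat, map_ofNat]
        exact h4
      rw [hw.good v h3 (sep_up hle (hred u hR h))] at hv1
      norm_num at hv1
  rw [rootNumber, hprod, hempty, Set.ncard_empty, pow_zero, mul_one, ← pow_mul]
  exact ((even_infinite (F := F) hn hn2).mul_left g).neg_one_pow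

theorem cls_of {M : Type} [Field M] [NumberField M] [Algebra F M] {R : ℕ} {f : (𝓞 F)[X]}
    (h : InClass R f M) : Pool.Agent.H458.AG.ClsM F M R f where
  spl := fun v hv => ⟨Pool.Agent.H458.AG.Gen.unr_of (h.split v hv).1, (h.split v hv).2⟩
  unr := fun v => (h.ramified v).imp Pool.Agent.H458.AG.Gen.unr_of id
  real := fun σ => (h.real σ).imp id fun h' => by
    unfold Pool.Agent.N783.PF.fF
    rw [Polynomial.map_map]
    exact h'

/-- `M = F` belongs to all the classes. -/
theorem self_mem (R : ℕ) (f : (𝓞 F)[X]) : InClass R f F := by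
  have h2 := Pool.Agent.H458.AG.Gen.cls_base (F := F) R f
  exact ⟨inferInstance, ⟨0, by rw [Module.finrank_self, pow_zero]⟩,
    fun v hv => ⟨Pool.Agent.H458.AG.Gen.of_unr (h2.spl v hv).1, (h2.spl v hv).2⟩,
    fun v => Or.inl (Pool.Agent.H458.AG.Gen.of_unr (Pool.Agent.H458.AU.unr_self v)),
    fun σ => Or.inl ⟨σ, by
    ext x
    rfl⟩⟩

theorem good_of {g R : ℕ} {𝒟 : Finset ℕ} {𝒮 : Finset (𝓞 F)} (h2R : 2 ∣ R) (h𝒮 : ∀ d ∈ 𝒮, d ≠ 0)
    (hD0 : ∀ D ∈ 𝒟, Squarefree D ∧ D ∣ R) {f : (𝓞 F)[X]}
    (hf : f ∈ Pool.Agent.H458.AG.Gen.VV F g R 𝒟 𝒮) {d : 𝓞 F} (hd : d ∈ 𝒮) :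
    ∃ D ∈ 𝒟, Good g R (twist f d) f (d * (D : 𝓞 F)) := by
  obtain ⟨D, hD, hm, hdeg, hirr, h⟩ := Pool.Agent.H458.AG.Gen.triv_of h𝒮 (fun D hD => (hD0 D hD).1) hf hd
  refine ⟨D, hD, ?_, ?_⟩
  · intro M _ _ _ hM
    haveI := hM.galois
    obtain ⟨n, hn⟩ := hM.degree
    exact h M n hn (cls_of hM)
  · intro M _ _ _ hM hnc w hw
    refine root_one h2R (fun u hu hi => ?_) hm hdeg hirr M hM hnc w hw
    have hDu : (D : 𝓞 F) ∉ u.asIdeal := by
      intro h3
      apply hu
      obtain ⟨m, hm'⟩ := (hD0 D hD).2
      rw [hm', Nat.cast_mul]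
      exact Ideal.mul_mem_right _ _ h3
    have h4 := Pool.Agent.H458.AG.rd_scale hDu (f := f.scaleRoots d) ((monic_scaleRoots_iff _).2 hf.1) hi
    rw [← scaleRoots_mul] at h4
    exact h4

end pf

/-- **Jacobians of every dimension over every number field: almost all of them after a bounded twist.**
For every number field `F`, every `g ≥ 1`, `W ≥ 1`, every finite set `𝒮` of nonzero integers of `F` and
`ε > 0` there are a finite set `𝒟` of squarefree natural numbers `D ≡ 1 mod 8 W` and a multiple `R` of `2 W` and of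
all `D ∈ 𝒟` such that for all large `B` at least `(1 - ε)` times the number of ALL the `f` of height at most `B`
have for every `d ∈ 𝒮` a `D ∈ 𝒟` with the following property, `J` the Jacobian of the twist of
`y ^ 2 = f(x)` by `d D`: for ALL the extensions `M / F` in the class `C(f ^ d, R)` (among them `F`) multiplication
by two is bijective on `J(M)` and the 2-primary part of the Tate-Shafarevich group of `J` over `M` is zero, and if
`Gal(M / F)` is not cyclic, the root number of `J` over `M` is `1`. -/
theorem result (F : Type) [Field F] [NumberField F] (g : ℕ) (hg : 1 ≤ g) (W : ℕ) (hW : 0 < W)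
    (𝒮 : Finset (𝓞 F)) (h𝒮 : ∀ d ∈ 𝒮, d ≠ 0) (ε : ℝ) (hε : 0 < ε) :
    (∀ B : ℕ, (Polys F g B).Finite) ∧
    ∃ (R : ℕ) (𝒟 : Finset ℕ), 0 < R ∧ 2 * W ∣ R ∧ 1 ∈ 𝒟 ∧
      (∀ D ∈ 𝒟, Squarefree D ∧ D ≡ 1 [MOD 8 * W] ∧ D ∣ R) ∧
      (∀ f : (𝓞 F)[X], InClass R f F) ∧
      ∀ᶠ B : ℕ in atTop, 0 < (Polys F g B).ncard ∧
        (1 - ε) * ((Polys F g B).ncard : ℝ) ≤ ({f ∈ Polys F g B | ∀ d ∈ 𝒮, ∃ D ∈ 𝒟,
          Good g R (twist f d) f (d * (D : 𝓞 F))}.ncard : ℝ) := by
  have heq : ∀ B, Polys F g B = {f : (𝓞 F)[X] | Pool.Agent.N783.PF.Ht g B f} := by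
    intro B
    ext f
    exact ⟨fun h => ⟨h.monic, h.degree, h.trace, fun j hj σ => h.height j hj σ⟩,
      fun h => ⟨h.mon, h.deg, h.tr, fun j hj σ => h.ht j hj σ⟩⟩
  obtain ⟨hfin, R, 𝒟, hR, hWR, h1, hD, hX⟩ := Pool.Agent.H458.AG.Gen.part F W hW 𝒮 h𝒮 ε hε g hg
  have hfin' : ∀ B : ℕ, (Polys F g B).Finite := fun B => by
    rw [heq]
    exact hfin B
  refine ⟨hfin', R, 𝒟, hR, hWR, h1, hD, self_mem R, ?_⟩
  filter_upwards [hX] with B hB
  obtain ⟨h2, h3⟩ := hB
  rw [← heq] at h2 h3
  refine ⟨h2, h3.trans ?_⟩
  have h4 := Set.ncard_le_ncard (s := Pool.Agent.H458.AG.Gen.VV F g R 𝒟 𝒮 ∩ Polys F g B)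
    (t := {f ∈ Polys F g B | ∀ d ∈ 𝒮, ∃ D ∈ 𝒟, Good g R (twist f d) f (d * (D : 𝓞 F))})
    (fun f hf => ⟨hf.2, fun d hd => good_of (dvd_of_mul_right_dvd hWR) h𝒮
      (fun D hD' => ⟨(hD D hD').1, (hD D hD').2.2⟩) hf.1 hd⟩)
    ((hfin' B).subset fun f hf => hf.1)
  exact_mod_cast h4

end Pool.Agent.Results.MP_ac3185_nt.AlmostAllJacobians
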