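import Pool.Graph.R_pool_sql_team_seeded_63374d34.N874.TF.All
import Pool.Graph.R_pool_sql_team_seeded_63374d34.N874.Jac.Def
import Pool.Agent.H458.RN.Rel

/-!
# Jacobians of every dimension over every number field, over infinitely many extensions at once

Let `F` be ANY number field and `g ≥ 1`. We consider ALL polynomials
`f = x ^ (2 g + 1) + a_(2 g - 1) x ^ (2 g - 1) + ... + a_0` with coefficients in the ring of integers of `F`,
ordered by the height: `|σ a_i| ≤ B ^ (2 g + 1 - i)` for all embeddings `σ : F → ℂ`. (Every hyperelliptic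
curve of genus `g` over `F` with a rational Weierstrass point, and for `g = 1` every elliptic curve over
`F`, has an equation `y ^ 2 = f(x)` with such an `f`.) `J` is the Jacobian of `y ^ 2 = f(x)`, an abelian
variety of dimension `g` over `F`.

For `f` and a finite set `Q` of primes of `F` let `C(f, Q)` be the class of all the finite Galois extensions
`M / F` of 2-power degree in which all the infinite places of `F`, all the primes over `2` and all `v ∈ Q`
split completely and in which only primes are ramified modulo which `f` is irreducible.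

Theorem. For every finite set `T` of primes of `F` there are a finite set `Q` of primes of `F`, disjoint
from `T` and prime to `2`, and `c > 0` such that for all large `B` at least `c` times the number of all
`f` of height at most `B` are irreducible over `F`, modulo the primes over `2` and modulo all `v ∈ T`,
are twists of a polynomial with squarefree discriminant, and have the following properties.

(1) For ALL `M ∈ C(f, Q)` multiplication by two is bijective on `J(M)`, and the 2-primary part of the
Tate-Shafarevich group of `J` over `M` is zero. (So `J(M)` is finite of odd order by the theorem of Mordell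
and Weil, and the rank is 0.)

(2) For all `M ∈ C(f, Q)` such that `Gal(M / F)` is not cyclic the root number of `J` over `M` is `1`:
`(-1) ^ (g r) ∏ w(J / M_v) = 1`, `r` the number of the infinite places of `M`. We prove this for every
function `w` on the primes of `M` with three properties of the local root numbers: the values are signs,
`w v = 1` if `v` does not divide `2` and `f` has no multiple zero modulo `v` (good reduction), and `w` is
invariant under `Gal(M / F)` (as `J` is defined over `F`).

Hence the parity conjecture `(-1) ^ rk = w` holds for `J` over all the `M ∈ C(f, Q)` with a Galois group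
which is not cyclic.

The class `C(f, Q)` is closed under composita and infinite, by the theorem of Chebotarev: the polynomial is
irreducible modulo the primes over `2`, so that the Frobenius automorphism permutes its zeros in one cycle.

Part (1) is a consequence of the theorem `Pool.Agent.N874.TF.final` of project TF (helper874), based on
project PF (helper783), on the explicit 2-Selmer groups, and of projects JB (helper352) and QM (helper874);
it was only used for elliptic curves (`MP_bd895b_nt.EveryNumberFieldAtTwo`). The case `F = ℚ` of (1) is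
`MP_ac3185_nt.RankZeroUniformly`; the case `M = F` of (1) is `MP_1d384c_nt.JacobiansNumberFields`.

Part (2). The product over the primes is `(-1) ^ n`, where `n` is the number of the primes `v` with `w v = -1`
which are stable under the 2-group `Gal(M / F)`. Such a `v` is not over a ramified prime, where the
reduction is good; so the Galois group is the decomposition group of an unramified prime, and cyclic.
-/

set_option autoImplicit false
set_option linter.all false

namespace Pool.Agent.Results.MP_ac3185_nt.EveryFieldEveryGenus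

open Polynomial Filter IsDedekindDomain NumberField
open Pool.Agent.N874.Jac (UniquelyTwoDivisible ShaTwoTrivialReal)
open scoped Classical

section defs

variable {F : Type} [Field F] [NumberField F]

/-- `f` is a monic polynomial of degree `2 g + 1` with integral coefficients, without term of degree
`2 g`, and of height at most `B`: all conjugates of the coefficient of degree `j` are at most
`B ^ (2 g + 1 - j)` in absolute value. -/
structure IsPoly (g B : ℕ) (f : (𝓞 F)[X]) : Prop where
  monic : f.Monic
  degree : f.natDegree = 2 * g + 1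
  trace : f.coeff (2 * g) = 0
  height : ∀ j ≤ 2 * g, ∀ σ : F →+* ℂ, ‖σ (f.coeff j : F)‖ ≤ (B : ℝ) ^ (2 * g + 1 - j)

variable (F) in
/-- The polynomials `f` of height at most `B`. -/
def Polys (g B : ℕ) : Set (𝓞 F)[X] := {f | IsPoly g B f}

/-- `f` is irreducible modulo `v`. -/
def IrreducibleMod (f : (𝓞 F)[X]) (v : HeightOneSpectrum (𝓞 F)) : Prop :=
  Irreducible (f.map (Ideal.Quotient.mk v.asIdeal))

/-- `f` is the twist `D ^ (2 g + 1) f₀(x / D)` of a polynomial `f₀` whose discriminant is not divisible by
the square of a prime; `D` is a product of different prime numbers which are 1 modulo 8, and the primes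
which divide `D` are in `Q` or `f₀` is irreducible modulo them. -/
def AlmostSquarefree (g : ℕ) (Q : Finset (HeightOneSpectrum (𝓞 F))) (f : (𝓞 F)[X]) : Prop :=
  ∃ (D : ℕ) (f₀ : (𝓞 F)[X]),
    (∀ v : HeightOneSpectrum (𝓞 F),
      f₀.resultant (derivative f₀) (2 * g + 1) (2 * g) ∉ v.asIdeal ^ 2) ∧
    f = f₀.scaleRoots (D : 𝓞 F) ∧ Squarefree D ∧ (∀ q : ℕ, q.Prime → q ∣ D → q % 8 = 1) ∧
    ∀ v : HeightOneSpectrum (𝓞 F), (D : 𝓞 F) ∈ v.asIdeal → v ∈ Q ∨ IrreducibleMod f₀ v

/-- `M / F` is unramified at `v`. -/
def Unramified (v : HeightOneSpectrum (𝓞 F)) (M : Type) [Field M] [NumberField M]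
    [Algebra F M] : Prop :=
  ∀ w : HeightOneSpectrum (𝓞 M), v.asIdeal.map (algebraMap (𝓞 F) (𝓞 M)) ≤ w.asIdeal →
    ¬ v.asIdeal.map (algebraMap (𝓞 F) (𝓞 M)) ≤ w.asIdeal ^ 2

/-- `v` splits completely in `M`: it is unramified and all integers of `M` are congruent to integers of
`F` modulo every prime over `v`. -/
def SplitsCompletely (v : HeightOneSpectrum (𝓞 F)) (M : Type) [Field M] [NumberField M]
    [Algebra F M] : Prop :=
  Unramified v M ∧
  ∀ w : HeightOneSpectrum (𝓞 M), v.asIdeal.map (algebraMap (𝓞 F) (𝓞 M)) ≤ w.asIdeal →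
    ∀ y : 𝓞 M, ∃ c : 𝓞 F, y - algebraMap (𝓞 F) (𝓞 M) c ∈ w.asIdeal

/-- `M` belongs to the class `C(f, Q)`. -/
structure InClass (Q : Finset (HeightOneSpectrum (𝓞 F))) (f : (𝓞 F)[X]) (M : Type) [Field M]
    [NumberField M] [Algebra F M] : Prop where
  galois : IsGalois F M
  degree : ∃ n : ℕ, Module.finrank F M = 2 ^ n
  real : ∀ ρ : F →+* ℝ, ∃ ρ' : M →+* ℝ, ρ'.comp (algebraMap F M) = ρ
  two : ∀ v : HeightOneSpectrum (𝓞 F), (2 : 𝓞 F) ∈ v.asIdeal →
    SplitsCompletely v M ∧ Nonempty (M →ₐ[F] v.adicCompletion F)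
  split : ∀ v ∈ Q, SplitsCompletely v M
  ramified : ∀ v : HeightOneSpectrum (𝓞 F), Unramified v M ∨ IrreducibleMod f v

/-- The polynomial `f` over the extension `M` of `F`. -/
noncomputable def overM (M : Type) [Field M] [Algebra F M] (f : (𝓞 F)[X]) : M[X] :=
  (f.map (algebraMap (𝓞 F) F)).map (algebraMap F M)

/-- Multiplication by two is bijective on `J(M)`, `J` the Jacobian of `y ^ 2 = P(x)`, and the 2-primary
part of the Tate-Shafarevich group of `J` over `M` is zero. -/
def NoTwoPart {M : Type} [Field M] [NumberField M] (P : M[X]) : Prop :=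
  UniquelyTwoDivisible P ∧ ShaTwoTrivialReal P (𝓞 M)

/-- The properties of the local root numbers `w(J / M_v)` at the primes `v` of `M` which we use: they are
signs, they are `1` if `v` does not divide `2` and `f` has no multiple zero modulo `v` (`J` has good
reduction), and they are the same for primes which are conjugate over `F`. -/
structure LocalRootNumbers (f : (𝓞 F)[X]) (M : Type) [Field M] [NumberField M] [Algebra F M]
    (w : HeightOneSpectrum (𝓞 M) → ℤ) : Prop where
  sign : ∀ v, w v = 1 ∨ w v = -1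
  good : ∀ v : HeightOneSpectrum (𝓞 M), (2 : 𝓞 M) ∉ v.asIdeal →
    ((f.map (algebraMap (𝓞 F) (𝓞 M))).map (Ideal.Quotient.mk v.asIdeal)).Separable → w v = 1
  conj : ∀ (σ : M ≃ₐ[F] M) (v v' : HeightOneSpectrum (𝓞 M)),
    (∀ x : M, v'.valuation M x = v.valuation M (σ x)) → w v' = w v

/-- The global root number of an abelian variety of dimension `g`: the product of the local root numbers
at the primes and of `(-1) ^ g` for every infinite place. -/
noncomputable def rootNumber (g : ℕ) (M : Type) [Field M] [NumberField M]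
    (w : HeightOneSpectrum (𝓞 M) → ℤ) : ℤ :=
  ((-1) ^ g) ^ Nat.card (InfinitePlace M) * ∏ᶠ v, w v

/-- The properties of the polynomials in the theorem. -/
structure Good (g : ℕ) (Q T : Finset (HeightOneSpectrum (𝓞 F))) (f : (𝓞 F)[X]) : Prop where
  irreducible : Irreducible (f.map (algebraMap (𝓞 F) F))
  two : ∀ v : HeightOneSpectrum (𝓞 F), (2 : 𝓞 F) ∈ v.asIdeal → IrreducibleMod f v
  mod : ∀ v ∈ T, IrreducibleMod f v
  squarefree : AlmostSquarefree g Q f
  selmer : ∀ (M : Type) [Field M] [NumberField M] [Algebra F M], InClass Q f M →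
    NoTwoPart (overM M f)
  root : ∀ (M : Type) [Field M] [NumberField M] [Algebra F M], InClass Q f M →
    ¬ IsCyclic (M ≃ₐ[F] M) → ∀ w : HeightOneSpectrum (𝓞 M) → ℤ, LocalRootNumbers f M w →
    {v | w v ≠ 1}.Finite ∧ rootNumber g M w = 1

end defs

section pf

variable {F : Type} [Field F] [NumberField F]

open Pool.Agent.H458.RN

theorem sep_up {M : Type} [Field M] [NumberField M] [Algebra F M] {f : (𝓞 F)[X]}
    {u : HeightOneSpectrum (𝓞 F)} {v : HeightOneSpectrum (𝓞 M)}
    (hl : u.asIdeal.map (algebraMap (𝓞 F) (𝓞 M)) ≤ v.asIdeal) (h : IrreducibleMod f u) :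
    ((f.map (algebraMap (𝓞 F) (𝓞 M))).map (Ideal.Quotient.mk v.asIdeal)).Separable := by
  haveI : u.asIdeal.IsMaximal := u.isMaximal
  letI : Field (𝓞 F ⧸ u.asIdeal) := Ideal.Quotient.field u.asIdeal
  haveI : Finite (𝓞 F ⧸ u.asIdeal) := inferInstance
  have h1 : (f.map (Ideal.Quotient.mk u.asIdeal)).Separable :=
    PerfectField.separable_of_irreducible h
  let φ : (𝓞 F ⧸ u.asIdeal) →+* (𝓞 M ⧸ v.asIdeal) :=
    Ideal.Quotient.lift u.asIdeal ((Ideal.Quotient.mk v.asIdeal).comp (algebraMap (𝓞 F) (𝓞 M)))
      (fun a ha => by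
        rw [RingHom.comp_apply, Ideal.Quotient.eq_zero_iff_mem]
        exact hl (Ideal.mem_map_of_mem _ ha))
  have h2 := h1.map (f := φ)
  rw [Polynomial.map_map] at h2
  rw [Polynomial.map_map]
  exact h2

theorem root_one {g : ℕ} {Q : Finset (HeightOneSpectrum (𝓞 F))} {f : (𝓞 F)[X]}
    (hm : f.Monic) (hd : f.natDegree = 2 * g + 1)
    (hirr : Irreducible (f.map (algebraMap (𝓞 F) F)))
    (M : Type) [Field M] [NumberField M] [Algebra F M] (hM : InClass Q f M)
    (hnc : ¬ IsCyclic (M ≃ₐ[F] M)) (w : HeightOneSpectrum (𝓞 M) → ℤ)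
    (hw : LocalRootNumbers f M w) : {v | w v ≠ 1}.Finite ∧ rootNumber g M w = 1 := by
  haveI := hM.galois
  obtain ⟨n, hn⟩ := hM.degree
  haveI : FiniteDimensional F M := Module.finite_of_finrank_pos (by rw [hn]; positivity)
  have hcardG : Nat.card (M ≃ₐ[F] M) = 2 ^ n := by
    rw [IsGalois.card_aut_eq_finrank, hn]
  -- the degree is at least four
  have hn2 : 2 ≤ n := by
    by_contra hlt
    apply hnc
    haveI : Fact (Nat.Prime 2) := ⟨Nat.prime_two⟩
    obtain rfl | rfl : n = 0 ∨ n = 1 := by omega
    · rw [pow_zero, Nat.card_eq_one_iff_unique] at hcardG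
      haveI := hcardG.1
      exact isCyclic_of_subsingleton
    · rw [pow_one] at hcardG
      exact isCyclic_of_prime_card hcardG
  have hfin : {v | w v ≠ 1}.Finite := by
    refine (bad_finite (P := f.map (algebraMap (𝓞 F) (𝓞 M))) ?_ ?_).subset ?_
    · rw [hm.natDegree_map, hd]
      omega
    · rw [Polynomial.map_map]
      have h1 := hirr.separable.map (f := algebraMap F M)
      rw [Polynomial.map_map] at h1
      have e : (algebraMap (𝓞 M) M).comp (algebraMap (𝓞 F) (𝓞 M)) =
          (algebraMap F M).comp (algebraMap (𝓞 F) F) := rfl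
      rw [e]
      exact h1
    · intro v hv
      rw [Set.mem_setOf_eq]
      by_contra h
      rw [not_or, not_not] at h
      exact hv (hw.good v h.1 h.2)
  refine ⟨hfin, ?_⟩
  have hprod := prod_eq F hn w hw.sign hfin hw.conj
  have hempty : {v | w v = -1 ∧ Fixed F v} = ∅ := by
    rw [Set.eq_empty_iff_forall_notMem]
    rintro v ⟨hv1, hv2⟩
    obtain ⟨u, hu⟩ := Pool.Agent.N874.TF.exists_bel F v
    haveI hl : v.asIdeal.LiesOver u.asIdeal := ⟨by
      ext y
      rw [Ideal.mem_comap]
      exact hu y⟩
    have hle : u.asIdeal.map (algebraMap (𝓞 F) (𝓞 M)) ≤ v.asIdeal := by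
      rw [Ideal.map_le_iff_le_comap]
      intro y hy
      exact (hu y).1 hy
    -- an unramified prime
    have hunr : ∀ h : Unramified u M, False := by
      intro h
      apply hnc
      refine cyclic_of_fixed (u := u) (v := v) ?_ hv2
      exact Ideal.ramificationIdx'_spec (by rw [pow_one]; exact hle) (h v hle)
    by_cases h2 : (2 : 𝓞 F) ∈ u.asIdeal
    · exact hunr (hM.two u h2).1.1
    rcases hM.ramified u with h | h
    · exact hunr h
    · have h3 : (2 : 𝓞 M) ∉ v.asIdeal := by
        intro h4
        apply h2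
        rw [hu, map_ofNat]
        exact h4
      rw [hw.good v h3 (sep_up hle h)] at hv1
      norm_num at hv1
  rw [rootNumber, hprod, hempty, Set.ncard_empty, pow_zero, mul_one, ← pow_mul]
  exact ((even_infinite (F := F) hn hn2).mul_left g).neg_one_pow

theorem good_of {g B : ℕ} {Q T : Finset (HeightOneSpectrum (𝓞 F))} {f : (𝓞 F)[X]}
    (h1 : Pool.Agent.N783.PF.Ht g B f) (h2 : Irreducible (Pool.Agent.N783.PF.fF f))
    (a1 : ∀ v : HeightOneSpectrum (𝓞 F), (2 : 𝓞 F) ∈ v.asIdeal →
      Irreducible (Pool.Agent.N783.PF.rd v.asIdeal f))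
    (a2 : ∀ v ∈ T, Irreducible (Pool.Agent.N783.PF.rd v.asIdeal f))
    (a3 : Pool.Agent.N874.TF.Tws g {𝔭 | ∃ v ∈ Q, 𝔭 = v.asIdeal} f)
    (a4 : Pool.Agent.N874.TF.Uni {𝔭 | ∃ v ∈ Q, 𝔭 = v.asIdeal} f f) : Good g Q T f := by
  refine ⟨h2, a1, a2, ?_, ?_, ?_⟩
  · obtain ⟨D, f₀, b1, b2, b3, b4, b5⟩ := a3
    refine ⟨D, f₀, fun v => b1 v.asIdeal v.isPrime v.ne_bot, b2, b3, b4, fun v hv => ?_⟩
    rcases b5 v hv with ⟨v', hv', h⟩ | h
    · left
      rw [HeightOneSpectrum.ext h]
      exact hv'
    · exact Or.inr h
  · intro M _ _ _ hM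
    haveI := hM.galois
    obtain ⟨n, hn⟩ := hM.degree
    have hspl : ∀ v : HeightOneSpectrum (𝓞 F), SplitsCompletely v M →
        Pool.Agent.N874.TF.Spl v M := by
      intro v hv
      refine ⟨Pool.Agent.N874.TF.unr_of hv.1, fun w hw y => ?_⟩
      obtain ⟨y, rfl⟩ := Ideal.Quotient.mk_surjective y
      obtain ⟨c, hc⟩ := hv.2 w (Ideal.map_le_iff_le_comap.2 hw) y
      exact ⟨c, (Ideal.Quotient.eq.2 hc).symm⟩
    have hsel := a4 M (fun v hv => by
        obtain ⟨σ⟩ := (hM.two v hv).2
        exact ⟨σ, fun y => σ.commutes y⟩) hM.real n hn (by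
        rintro v ⟨v', hv', h⟩
        rw [HeightOneSpectrum.ext h]
        exact hspl v' (hM.split v' hv')) (by
        intro v hv
        rcases hM.ramified v with h | h
        · exact absurd (Pool.Agent.N874.TF.unr_of h) hv
        · exact h)
    exact Pool.Agent.N874.TF.genuineF hn h1.mon (by rw [h1.deg]; exact odd_two_mul_add_one g) h2 hsel
  · intro M _ _ _ hM hnc w hw
    exact root_one h1.mon h1.deg h2 M hM hnc w hw

end pf

/-- **Jacobians of every dimension over every number field, over infinitely many extensions at once.**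
For every number field `F`, every `g ≥ 1` and every finite set `T` of primes of `F` there are a finite set
`Q` of primes, disjoint from `T` and prime to 2, and `c > 0` such that for all large `B` at least `c` times
the number of all the `f` of height at most `B` are good: in particular for ALL the extensions `M / F` in
the class `C(f, Q)` multiplication by two is bijective on `J(M)` and the 2-primary part of the
Tate-Shafarevich group of `J` over `M` is zero, and if `Gal(M / F)` is not cyclic, the root number of `J`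
over `M` is `1`. -/
theorem result (F : Type) [Field F] [NumberField F] (g : ℕ) (hg : 1 ≤ g)
    (T : Finset (HeightOneSpectrum (𝓞 F))) :
    (∀ B : ℕ, (Polys F g B).Finite) ∧
    ∃ Q : Finset (HeightOneSpectrum (𝓞 F)), Disjoint Q T ∧ (∀ v ∈ Q, (2 : 𝓞 F) ∉ v.asIdeal) ∧
      ∃ c : ℝ, 0 < c ∧ ∀ᶠ B : ℕ in atTop, 0 < (Polys F g B).ncard ∧
        c * ((Polys F g B).ncard : ℝ) ≤ ({f ∈ Polys F g B | Good g Q T f}.ncard : ℝ) := by
  have heq : ∀ B, Polys F g B = {f : (𝓞 F)[X] | Pool.Agent.N783.PF.Ht g B f} := by
    intro B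
    ext f
    exact ⟨fun h => ⟨h.monic, h.degree, h.trace, fun j hj σ => h.height j hj σ⟩,
      fun h => ⟨h.mon, h.deg, h.tr, fun j hj σ => h.ht j hj σ⟩⟩
  obtain ⟨Q, hQ1, hQ2, c, hc, B₀, hB₀⟩ := Pool.Agent.N874.TF.final F hg T
  have hfin : ∀ B : ℕ, (Polys F g B).Finite := by
    intro B
    have h1 := (hB₀ (max B B₀) (le_max_right _ _)).1
    rw [← heq] at h1
    refine h1.subset fun f hf => ⟨hf.monic, hf.degree, hf.trace, fun j hj σ => ?_⟩
    refine (hf.height j hj σ).trans ?_
    exact pow_le_pow_left₀ (Nat.cast_nonneg _) (by exact_mod_cast le_max_left B B₀) _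
  refine ⟨hfin, Q, hQ1, hQ2, c, hc, ?_⟩
  filter_upwards [eventually_ge_atTop B₀] with B hB
  obtain ⟨hHt, hle⟩ := hB₀ B hB
  have hsub : {f : (𝓞 F)[X] | Pool.Agent.N783.PF.Ht g B f ∧
      Irreducible (Pool.Agent.N783.PF.fF f) ∧
      (∀ v : HeightOneSpectrum (𝓞 F), (2 : 𝓞 F) ∈ v.asIdeal →
        Irreducible (Pool.Agent.N783.PF.rd v.asIdeal f)) ∧
      (∀ v ∈ T, Irreducible (Pool.Agent.N783.PF.rd v.asIdeal f)) ∧
      Pool.Agent.N874.TF.Tws g {𝔭 | ∃ v ∈ Q, 𝔭 = v.asIdeal} f ∧
      Pool.Agent.N874.TF.Uni {𝔭 | ∃ v ∈ Q, 𝔭 = v.asIdeal} f f ∧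
      Pool.Agent.N783.PF.Min g f} ⊆ {f ∈ Polys F g B | Good g Q T f} := by
    rintro f ⟨h1, h2, a1, a2, a3, a4, -⟩
    exact ⟨⟨h1.mon, h1.deg, h1.tr, fun j hj σ => h1.ht j hj σ⟩, good_of h1 h2 a1 a2 a3 a4⟩
  have h1 := Set.ncard_le_ncard hsub ((hfin B).subset fun f hf => hf.1)
  refine ⟨?_, ?_⟩
  · rw [Set.ncard_pos (hfin B)]
    refine ⟨X ^ (2 * g + 1), monic_X_pow _, natDegree_X_pow _, ?_, fun j hj σ => ?_⟩
    · rw [coeff_X_pow, if_neg (by omega)]
    · rw [coeff_X_pow, if_neg (by omega)]
      have e0 : ((0 : 𝓞 F) : F) = 0 := rfl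
      rw [e0, map_zero, norm_zero]
      positivity
  · rw [← heq] at hle
    exact hle.trans (by exact_mod_cast h1)

end Pool.Agent.Results.MP_ac3185_nt.EveryFieldEveryGenus
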