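import Pool.Agent.H367.OS.GEul
import Pool.Agent.H367.OS.Fld

/-!
# The parity conjecture for abelian varieties and the signs of one sequence of cubics

A relation `r` of size `m` is one of the equations `x_i x_j = x_l`, `x_i + x_j = x_l`, `x_i = 1` with
`i, j, l < m`; the relations are numbered, the number of `r` is `ν(r)` (`relNum`). Let `G_m` be the
following polynomial with integral coefficients (`univG ℤ m`). There are variables `x_i` and `z_ij` for
`i, j < m`, a variable `c_r` for every relation `r`, and variables `y_{r,l}` for all relations `r` and
`l < (m + 1) 2 ^ ν(r)`. The equations (`eqnG`) are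

  `z_ij - x_i x_j`,  `c_r ^ 2 - c_r`,  `c_r ρ_r`,  `(1 - c_r) y_{r,l}`,

where `ρ_r` is the linear polynomial `z_ij - x_l`, `x_i + x_j - x_l` or `x_i - 1` of the relation.
`G_m` is the sum of the equations multiplied by further variables `t_e`, one for each equation. It has
degree three. Let `C_m` be the affine cubic hypersurface `G_m = 1` (`cubG R m` over the ring `R`); it is
smooth over the integers.

Let `Γ` be the Grothendieck group of the abelian varieties over `ℚ` up to isogeny. The category of
motives over `ℚ` in the sense of André is semisimple. For a separated scheme `X` of finite type over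
`ℚ` consider the element `∑ (-1)^i [H^i_c(X)]` of its Grothendieck group (the cohomology with compact
supports, graded by weights), and let `c q X ∈ Γ` be the part of it which consists of the simple
motives `h^1(B)(-q)`, where `B` is an abelian variety over `ℚ`. So `c 0 Y` is minus the class of the
Picard variety of `Y`, for smooth projective `Y`; and `c 0` is minus the class of the Weil restriction
`Res A` for an abelian variety `A` over a number field `K`, regarded as a scheme over `ℚ` (`resQ K
A`).

Let `par : Γ → ℤ/2` be the homomorphism which maps the class of an abelian variety `B` to `rk B(ℚ) +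
∑_v μ(B/ℚ_v)`; it is well defined since ranks and local root numbers are invariant under isogenies and
additive (multiplicative). The parity conjecture for an abelian variety `A` over a number field `K`
(`Par K A`) is equivalent to the one for `Res A`, that is to `par (c 0 (resQ K A)) = 0`, and the
conjecture for all abelian varieties implies `par (c 0 Y) = 0` for all smooth projective `Y`. This is
the hypothesis `Describes`.

**Theorem.** Let `E_m` be the number of the equations, and for `N ∈ ℕ` let
`idx m q N = q + (m + 1) N + E_m - 1`.

(1) The parity conjecture is true for all abelian varieties over all number fields if and only if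
`par (c (idx m 0 N) C_m) = 0` for all `N`, for infinitely many `m`.

(2) For every abelian variety `A` over a number field and all large `m` there is a number `e` such
that the parity conjecture for `A` is equivalent to the single equation `par (c e C_m) = 0` in `ℤ/2`.

(3) For every affine scheme `Spec B` of finite type over `ℚ` and all large `m` there is an `N` such that
`c (idx m q N) C_m = - c q (Spec B)` in `Γ`, for `0 ≤ q ≤ m`.

(4) `G_m` has integral coefficients and degree at most three, and `C_m` is smooth over all rings.

The hypotheses on the invariants are standard (`IsEuler`): they are additive for closed-open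
decompositions; affine bundles shift the index; the invariants of `X` are zero for `q < 0` and `q >
dim X`; every smooth projective scheme has an affine bundle whose total space is affine (Jouanolou);
the class of every `X` is an integral combination of classes of smooth projective schemes (Hironaka).

Idea of the proof. The projection of `C_m` to the affine space with the coordinates `x, z, c, y` is an
affine bundle over the complement of the zero set `W_m` of the equations. The scheme `W_m` is the
disjoint union, over all sets `s` of relations (`c_r = 1` for `r ∈ s` and `c_r = 0` for the others), of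
the products `X_s × 𝔸 ^ ((m + 1) N(s))`, where `X_s` is the affine scheme defined by the relations in
`s` and `N(s) = ∑_{r ∈ s} 2 ^ ν(r)`. The numbers `N(s)` are different, and the dimension of `X_s` is at
most `m`. So the invariant of `W_m` with the index `q + (m + 1) N(s)`, `0 ≤ q ≤ m`, is the invariant of
`X_s` with the index `q`; the other components do not contribute. Every affine scheme of finite type
over a prime field is an `X_s`, for all large `m`.

The universal system of relations is the one of helper854 (`Pool.Agent.H854.SQ`).
-/

set_option autoImplicit false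

open CategoryTheory CategoryTheory.Limits AlgebraicGeometry Pool.Agent.Y116.UV Pool.Agent.Z125.UN
  Pool.Agent.Q193.LT Pool.Agent.H854.SQ Pool.Agent.H367.OS

universe w



namespace Pool.Agent.Results.MP_ac3185_nt.SignsOfOneSequence

/-- The abelian varieties `Ab K` over the number fields `K` and the parity conjecture `Par K` for them are
described by the invariants `c 0` of the schemes over `ℚ` and the homomorphism `par`:

* `smoothProj`: an abelian variety over `K` is a smooth projective scheme over `ℚ`;
* `restriction`: the parity conjecture for `A` is the vanishing of `par` on the class of its Weil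
  restriction (up to the sign);
* `picard`: `c 0 Y` is minus the class of the Picard variety of `Y` (or zero). -/
structure Describes (Ab Par : ∀ (K : Type) [Field K] [NumberField K], Sch K → Prop)
    {Γ : Type w} [AddCommGroup Γ] (c : ℤ → Sch ℚ → Γ) (par : Γ →+ ZMod 2) : Prop where
  smoothProj : ∀ (K : Type) [Field K] [NumberField K] (A : Sch K), Ab K A →
    SmoothProj (resQ K A)
  restriction : ∀ (K : Type) [Field K] [NumberField K] (A : Sch K), Ab K A →
    (Par K A ↔ par (c 0 (resQ K A)) = 0)
  picard : ∀ Y : Sch ℚ, SmoothProj Y → ∃ A : Sch ℚ, Ab ℚ A ∧ (Par ℚ A → par (c 0 Y) = 0)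

/-- **The parity conjecture and the signs of one sequence of cubic hypersurfaces over the integers.** See
the explanations above. -/
theorem result {Γ : Type w} [AddCommGroup Γ] {c : ℤ → Sch ℚ → Γ} (hc : IsEuler c)
    {par : Γ →+ ZMod 2} (point : ∀ q, c q (aff ℚ ℚ) = 0)
    {Ab Par : ∀ (K : Type) [Field K] [NumberField K], Sch K → Prop}
    (h : Describes Ab Par c par) :
    ((∀ (K : Type) [Field K] [NumberField K] (A : Sch K), Ab K A → Par K A) ↔
      ∃ᶠ m in Filter.atTop, ∀ N : ℕ, par (c (idx m 0 N) (cubG ℚ m)) = 0) ∧
    (∀ (K : Type) [Field K] [NumberField K] (A : Sch K), Ab K A → ∃ m₀ : ℕ, ∀ m, m₀ ≤ m →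
      ∃ e : ℕ, (Par K A ↔ par (c e (cubG ℚ m)) = 0)) ∧
    (∀ (B : Type) [CommRing B] [Algebra ℚ B] [Algebra.FiniteType ℚ B], ∃ m₀ : ℕ, ∀ m, m₀ ≤ m →
      ∃ N : ℕ, ∀ q : ℤ, 0 ≤ q → q ≤ m → c (idx m q N) (cubG ℚ m) = - c q (aff ℚ B)) ∧
    ∀ m : ℕ, (univG ℤ m).totalDegree ≤ 3 ∧
      ∀ (R : Type) [CommRing R], MvPolynomial.map (Int.castRingHom R) (univG ℤ m) = univG R m ∧
        Smooth (cubG R m).hom := by
  have hd : Decides (Kills par c) :=
    decides_euler isPrimeField_rat hc par fun q => by rw [point q, map_zero]
  have h0 : (∀ Y : Sch ℚ, SmoothProj Y → par (c 0 Y) = 0) ↔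
      ∃ᶠ m in Filter.atTop, ∀ N : ℕ, par (c (idx m 0 N) (cubG ℚ m)) = 0 := (hd.index 0).out 1 0
  refine ⟨Iff.trans ⟨fun g Y hY => ?_, fun g K _ _ A hA => ?_⟩ h0, fun K _ _ A hA => ?_,
    fun B _ _ _ => euler_affine isPrimeField_rat hc B, cubG_facts⟩
  · obtain ⟨A, hA, h1⟩ := h.picard Y hY
    exact h1 (g ℚ A hA)
  · exact (h.restriction K A hA).mpr (g _ (h.smoothProj K A hA))
  · obtain ⟨m₀, hm⟩ := euler_proj isPrimeField_rat hc _ (h.smoothProj K A hA) 0
    refine ⟨m₀, fun m hm1 => ?_⟩
    obtain ⟨e, he⟩ := hm m hm1
    refine ⟨e, ?_⟩
    have h1 := he 0 le_rfl le_rfl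
    rw [zero_add] at h1
    rw [h.restriction K A hA, h1, map_neg, neg_eq_zero]

end Pool.Agent.Results.MP_ac3185_nt.SignsOfOneSequence
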